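import Mathlib
import Pool.Agent.Lib.MP_16c009_coR.F6

/-!
# Every matroid of rank four with the half-plane property is independence-correlated
-/

set_option autoImplicit false

open Classical

namespace Pool.Agent.Results.MP_16c009_co.RankFourRayleigh

/-- Let `M` be a matroid of rank four on a finite set. If `M` has the half-plane property or, more generally, the
basis sums of `M` satisfy the Rayleigh inequality `b_e b_f ≥ b_ef b` for all positive weights and all distinct `e`,
`f`, then `M` is independence-correlated: `i_e i_f ≥ i_ef i` for all positive weights and all distinct `e`, `f`. -/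
theorem result (E : Type*) [Fintype E] [DecidableEq E] (M : Matroid E) (hE : M.E = Set.univ)
    (hr : M.eRank = 4)
    (hM : (∀ x : E → ℂ, (∀ a, 0 < (x a).re) →
        (∑ S ∈ (Finset.univ : Finset (Finset E)).filter (fun S : Finset E => M.IsBase (S : Set E)),
          ∏ a ∈ S, x a) ≠ 0) ∨
      (∀ w : E → ℝ, (∀ a, 0 < w a) → ∀ e f : E, e ≠ f →
        (∑ A ∈ (Finset.univ : Finset (Finset E)).filter
            (fun A : Finset E => M.IsBase (A : Set E) ∧ e ∈ A), ∏ a ∈ A, w a) *
          (∑ A ∈ (Finset.univ : Finset (Finset E)).filter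
            (fun A : Finset E => M.IsBase (A : Set E) ∧ f ∈ A), ∏ a ∈ A, w a) ≥
        (∑ A ∈ (Finset.univ : Finset (Finset E)).filter
            (fun A : Finset E => M.IsBase (A : Set E) ∧ e ∈ A ∧ f ∈ A), ∏ a ∈ A, w a) *
          (∑ A ∈ (Finset.univ : Finset (Finset E)).filter
            (fun A : Finset E => M.IsBase (A : Set E)), ∏ a ∈ A, w a)))
    (z : E → ℝ) (hz : ∀ a, 0 < z a) (e f : E) (hef : e ≠ f) :
    (∑ A ∈ (Finset.univ : Finset (Finset E)).filter
        (fun A : Finset E => M.Indep (A : Set E) ∧ e ∈ A), ∏ a ∈ A, z a) *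
      (∑ A ∈ (Finset.univ : Finset (Finset E)).filter
        (fun A : Finset E => M.Indep (A : Set E) ∧ f ∈ A), ∏ a ∈ A, z a) ≥
    (∑ A ∈ (Finset.univ : Finset (Finset E)).filter
        (fun A : Finset E => M.Indep (A : Set E) ∧ e ∈ A ∧ f ∈ A), ∏ a ∈ A, z a) *
      (∑ A ∈ (Finset.univ : Finset (Finset E)).filter
        (fun A : Finset E => M.Indep (A : Set E)), ∏ a ∈ A, z a) := by
  rcases hM with hM | hM
  · exact Pool.Agent.Lib.MP_16c009_coR.rank_four_hpp hE hr hM hef z hz
  · exact Pool.Agent.Lib.MP_16c009_coR.rank_four_rayleigh hE hr hef (fun w hw => hM w hw e f hef) z hz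

end Pool.Agent.Results.MP_16c009_co.RankFourRayleigh
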