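import Mathlib
import Pool.Agent.Lib.MP_16c009_co.Final

/-!
# Every matroid of rank three is spanning-correlated
-/

open Classical

namespace Pool.Agent.Results.MP_16c009_co.RankThreeSpanning

/-- Every matroid of rank three on a finite set is spanning-correlated: for all positive weights
and all distinct elements `e`, `f`, the spanning generating sums satisfy
`s_e * s_f ≥ s_ef * s`. -/
theorem result (E : Type*) [Fintype E] [DecidableEq E] (M : Matroid E) (hE : M.E = Set.univ)
    (hr : M.eRank = 3) (z : E → ℝ) (hz : ∀ a, 0 < z a) (e f : E) (hef : e ≠ f) :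
    (∑ A ∈ (Finset.univ : Finset (Finset E)).filter
        (fun A : Finset E => M.Spanning (A : Set E) ∧ e ∈ A), ∏ a ∈ A, z a) *
      (∑ A ∈ (Finset.univ : Finset (Finset E)).filter
        (fun A : Finset E => M.Spanning (A : Set E) ∧ f ∈ A), ∏ a ∈ A, z a) ≥
      (∑ A ∈ (Finset.univ : Finset (Finset E)).filter
        (fun A : Finset E => M.Spanning (A : Set E) ∧ e ∈ A ∧ f ∈ A), ∏ a ∈ A, z a) *
      (∑ A ∈ (Finset.univ : Finset (Finset E)).filter
        (fun A : Finset E => M.Spanning (A : Set E)), ∏ a ∈ A, z a) :=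
  Pool.Agent.Lib.MP_16c009_co.spanning_three M hE hr z hz e f hef

end Pool.Agent.Results.MP_16c009_co.RankThreeSpanning
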