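import Mathlib
import Pool.Agent.Lib.MP_16c009_co_sw.Glue

/-!
# Correlation of every matroid in an explicit region of weights

No hypothesis on the matroid; the weights of the cocircuits (for the independent sets) or the
inverse weights of the circuits (for the spanning sets) are bounded.
-/

set_option autoImplicit false

open Classical

namespace Pool.Agent.Results.MP_16c009_co.SmallWeights

/-- Let `M` be a matroid on the finite set `E` and `z` a positive weight function.
(1) Let `e ≠ f`. If for every cocircuit `D` and all distinct `p, q ∈ D` the weights of the elements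
of `D` other than `e, f, p, q` sum to at most `1`, then the independent set sums satisfy
`i_e i_f ≥ i_{ef} i`.
(2) Let `e ≠ f`. If for every circuit `C` and all distinct `p, q ∈ C` the inverse weights of the
elements of `C` other than `e, f, p, q` sum to at most `1`, then the spanning set sums satisfy
`s_e s_f ≥ s_{ef} s`.
(3) If for every cocircuit `D` and all distinct `p, q ∈ D` the weights of the elements of `D` other
than `p, q` sum to at most `1`, then `i_P i_Q ≥ i_{P ∪ Q} i` for all disjoint sets `P`, `Q`.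
(4) If for every circuit `C` and all distinct `p, q ∈ C` the inverse weights of the elements of `C`
other than `p, q` sum to at most `1`, then the total weights of the spanning sets avoiding `P`,
`Q`, both, and nothing satisfy the same inequality. -/
theorem result (E : Type*) [Fintype E] [DecidableEq E] (M : Matroid E) (hE : M.E = Set.univ)
    (z : E → ℝ) (hz : ∀ a, 0 < z a) :
    (∀ e f : E, e ≠ f →
      (∀ D : Finset E, M.IsCocircuit (D : Set E) → ∀ p ∈ D, ∀ q ∈ D, p ≠ q →
        ∑ a ∈ D \ {e, f, p, q}, z a ≤ 1) →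
      (∑ A ∈ (Finset.univ : Finset (Finset E)).filter
          (fun A : Finset E => M.Indep (A : Set E) ∧ e ∈ A), ∏ a ∈ A, z a) *
      (∑ A ∈ (Finset.univ : Finset (Finset E)).filter
          (fun A : Finset E => M.Indep (A : Set E) ∧ f ∈ A), ∏ a ∈ A, z a) ≥
      (∑ A ∈ (Finset.univ : Finset (Finset E)).filter
          (fun A : Finset E => M.Indep (A : Set E) ∧ e ∈ A ∧ f ∈ A), ∏ a ∈ A, z a) *
      (∑ A ∈ (Finset.univ : Finset (Finset E)).filter
          (fun A : Finset E => M.Indep (A : Set E)), ∏ a ∈ A, z a)) ∧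
    (∀ e f : E, e ≠ f →
      (∀ C : Finset E, M.IsCircuit (C : Set E) → ∀ p ∈ C, ∀ q ∈ C, p ≠ q →
        ∑ a ∈ C \ {e, f, p, q}, 1 / z a ≤ 1) →
      (∑ A ∈ (Finset.univ : Finset (Finset E)).filter
          (fun A : Finset E => M.Spanning (A : Set E) ∧ e ∈ A), ∏ a ∈ A, z a) *
      (∑ A ∈ (Finset.univ : Finset (Finset E)).filter
          (fun A : Finset E => M.Spanning (A : Set E) ∧ f ∈ A), ∏ a ∈ A, z a) ≥
      (∑ A ∈ (Finset.univ : Finset (Finset E)).filter
          (fun A : Finset E => M.Spanning (A : Set E) ∧ e ∈ A ∧ f ∈ A), ∏ a ∈ A, z a) *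
      (∑ A ∈ (Finset.univ : Finset (Finset E)).filter
          (fun A : Finset E => M.Spanning (A : Set E)), ∏ a ∈ A, z a)) ∧
    ((∀ D : Finset E, M.IsCocircuit (D : Set E) → ∀ p ∈ D, ∀ q ∈ D, p ≠ q →
        ∑ a ∈ D \ {p, q}, z a ≤ 1) →
      ∀ P Q : Finset E, Disjoint P Q →
      (∑ A ∈ (Finset.univ : Finset (Finset E)).filter
          (fun A : Finset E => M.Indep (A : Set E) ∧ P ⊆ A), ∏ a ∈ A, z a) *
      (∑ A ∈ (Finset.univ : Finset (Finset E)).filter
          (fun A : Finset E => M.Indep (A : Set E) ∧ Q ⊆ A), ∏ a ∈ A, z a) ≥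
      (∑ A ∈ (Finset.univ : Finset (Finset E)).filter
          (fun A : Finset E => M.Indep (A : Set E) ∧ P ∪ Q ⊆ A), ∏ a ∈ A, z a) *
      (∑ A ∈ (Finset.univ : Finset (Finset E)).filter
          (fun A : Finset E => M.Indep (A : Set E)), ∏ a ∈ A, z a)) ∧
    ((∀ C : Finset E, M.IsCircuit (C : Set E) → ∀ p ∈ C, ∀ q ∈ C, p ≠ q →
        ∑ a ∈ C \ {p, q}, 1 / z a ≤ 1) →
      ∀ P Q : Finset E, Disjoint P Q →
      (∑ A ∈ (Finset.univ : Finset (Finset E)).filter
          (fun A : Finset E => M.Spanning (A : Set E) ∧ Disjoint P A), ∏ a ∈ A, z a) *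
      (∑ A ∈ (Finset.univ : Finset (Finset E)).filter
          (fun A : Finset E => M.Spanning (A : Set E) ∧ Disjoint Q A), ∏ a ∈ A, z a) ≥
      (∑ A ∈ (Finset.univ : Finset (Finset E)).filter
          (fun A : Finset E => M.Spanning (A : Set E) ∧ Disjoint (P ∪ Q) A), ∏ a ∈ A, z a) *
      (∑ A ∈ (Finset.univ : Finset (Finset E)).filter
          (fun A : Finset E => M.Spanning (A : Set E)), ∏ a ∈ A, z a)) :=
  ⟨fun _ _ hef h => Pool.Agent.Lib.MP_16c009_co_sw.part_one hE hz hef h,
    fun _ _ hef h => Pool.Agent.Lib.MP_16c009_co_sw.part_two hE hz hef h,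
    fun h P Q hPQ => Pool.Agent.Lib.MP_16c009_co_sw.part_three hE hz h P Q hPQ,
    fun h P Q hPQ => Pool.Agent.Lib.MP_16c009_co_sw.part_four hE hz h P Q hPQ⟩

end Pool.Agent.Results.MP_16c009_co.SmallWeights
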