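import Mathlib
import Pool.Agent.Lib.MP_16c009_co_lam2.Final

/-!
# Matroids given by two-sided bounds on a laminar family are correlated

This class contains all laminar matroids, their duals, and all lattice path matroids.
-/

set_option autoImplicit false

open Classical

namespace Pool.Agent.Results.MP_16c009_co.TwoSidedLaminar

/-- Let `M` be a matroid on the finite set `E` whose bases are the sets `B` with `|B| = r` and
`l A ≤ |B ∩ A| ≤ u A` for all `A` in a laminar family `𝒜`. Then for all positive weights and all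
distinct elements `e`, `f`, both the independent set sums and the spanning set sums satisfy the
negative correlation inequality. -/
theorem result (E : Type*) [Fintype E] [DecidableEq E] (M : Matroid E) (hE : M.E = Set.univ)
    (𝒜 : Finset (Finset E)) (h𝒜 : ∀ A ∈ 𝒜, ∀ B ∈ 𝒜, A ⊆ B ∨ B ⊆ A ∨ Disjoint A B)
    (l u : Finset E → ℕ) (r : ℕ)
    (hM : ∀ B : Finset E, M.IsBase (B : Set E) ↔
      B.card = r ∧ ∀ A ∈ 𝒜, l A ≤ (B ∩ A).card ∧ (B ∩ A).card ≤ u A)
    (z : E → ℝ) (hz : ∀ a, 0 < z a) (e f : E) (hef : e ≠ f) :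
    ((∑ A ∈ (Finset.univ : Finset (Finset E)).filter
          (fun A : Finset E => M.Indep (A : Set E) ∧ e ∈ A), ∏ a ∈ A, z a) *
      (∑ A ∈ (Finset.univ : Finset (Finset E)).filter
          (fun A : Finset E => M.Indep (A : Set E) ∧ f ∈ A), ∏ a ∈ A, z a) ≥
      (∑ A ∈ (Finset.univ : Finset (Finset E)).filter
          (fun A : Finset E => M.Indep (A : Set E) ∧ e ∈ A ∧ f ∈ A), ∏ a ∈ A, z a) *
      (∑ A ∈ (Finset.univ : Finset (Finset E)).filter
          (fun A : Finset E => M.Indep (A : Set E)), ∏ a ∈ A, z a)) ∧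
    ((∑ A ∈ (Finset.univ : Finset (Finset E)).filter
          (fun A : Finset E => M.Spanning (A : Set E) ∧ e ∈ A), ∏ a ∈ A, z a) *
      (∑ A ∈ (Finset.univ : Finset (Finset E)).filter
          (fun A : Finset E => M.Spanning (A : Set E) ∧ f ∈ A), ∏ a ∈ A, z a) ≥
      (∑ A ∈ (Finset.univ : Finset (Finset E)).filter
          (fun A : Finset E => M.Spanning (A : Set E) ∧ e ∈ A ∧ f ∈ A), ∏ a ∈ A, z a) *
      (∑ A ∈ (Finset.univ : Finset (Finset E)).filter
          (fun A : Finset E => M.Spanning (A : Set E)), ∏ a ∈ A, z a)) :=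
  Pool.Agent.Lib.MP_16c009_co_lam2.two_sided_correlated M hE 𝒜 h𝒜 l u r hM z hz e f hef

end Pool.Agent.Results.MP_16c009_co.TwoSidedLaminar
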